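import Mathlib

/-!
Greedy covers (Lovasz, Stein): a family of edges with at least `m` vertices each has a small hitting set.
-/

namespace H69TR

open Finset

/-- After `t` greedy steps only the fraction `(1 - m/|V|)^t` of the edges is not hit. -/
lemma greedy {ι : Type*} [DecidableEq ι] (V : Finset ℤ) (Ed : Finset ι) (e : ι → Finset ℤ)
    (m : ℕ) (hV : 0 < V.card) (hmV : m ≤ V.card) (he : ∀ i ∈ Ed, e i ⊆ V)
    (hm : ∀ i ∈ Ed, m ≤ (e i).card) (t : ℕ) :
    ∃ T : Finset ℤ, T.card ≤ t ∧
      ((Ed.filter (fun i => Disjoint (e i) T)).card : ℝ) ≤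
        Ed.card * (1 - (m : ℝ) / V.card) ^ t := by
  have hVr : (0 : ℝ) < V.card := by exact_mod_cast hV
  induction t with
  | zero =>
    refine ⟨∅, by simp, ?_⟩
    have : ((Ed.filter (fun i => Disjoint (e i) (∅ : Finset ℤ))).card : ℝ) ≤ Ed.card := by
      exact_mod_cast Finset.card_filter_le _ _
    simpa using this
  | succ t ih =>
    obtain ⟨T, hT, hR⟩ := ih
    set R := Ed.filter (fun i => Disjoint (e i) T) with hRdef
    -- a vertex of large degree in `R`
    have hsum : (m : ℝ) * R.card ≤ ∑ v ∈ V, ((R.filter (fun i => v ∈ e i)).card : ℝ) := by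
      have h1 : ∑ v ∈ V, ((R.filter (fun i => v ∈ e i)).card : ℕ) = ∑ i ∈ R, (V.filter (fun v => v ∈ e i)).card := by
        simp_rw [Finset.card_filter]
        exact Finset.sum_comm
      have h2 : ∀ i ∈ R, m ≤ (V.filter (fun v => v ∈ e i)).card := by
        intro i hi
        have hiE : i ∈ Ed := (Finset.mem_filter.mp hi).1
        refine (hm i hiE).trans (Finset.card_le_card ?_)
        intro v hv
        exact Finset.mem_filter.mpr ⟨he i hiE hv, hv⟩
      have h3 : R.card * m ≤ ∑ i ∈ R, (V.filter (fun v => v ∈ e i)).card := by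
        have := Finset.card_nsmul_le_sum R (fun i => (V.filter (fun v => v ∈ e i)).card) m h2
        simpa [smul_eq_mul] using this
      rw [← h1] at h3
      have h4 : ((R.card * m : ℕ) : ℝ) ≤ ((∑ v ∈ V, ((R.filter (fun i => v ∈ e i)).card : ℕ) : ℕ) : ℝ) := by
        exact_mod_cast h3
      push_cast at h4
      linarith
    obtain ⟨v, hvV, hv⟩ : ∃ v ∈ V, (m : ℝ) * R.card / V.card ≤ ((R.filter (fun i => v ∈ e i)).card : ℝ) := by
      by_contra hcon
      push Not at hcon
      have hVne : V.Nonempty := Finset.card_pos.mp hV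
      have := Finset.sum_lt_sum_of_nonempty hVne hcon
      rw [Finset.sum_const, nsmul_eq_mul] at this
      have h5 : (V.card : ℝ) * ((m : ℝ) * R.card / V.card) = m * R.card := by
        field_simp
      linarith
    refine ⟨insert v T, (Finset.card_insert_le _ _).trans (by omega), ?_⟩
    have hsub : (Ed.filter (fun i => Disjoint (e i) (insert v T))) ⊆ R \ (R.filter (fun i => v ∈ e i)) := by
      intro i hi
      rw [Finset.mem_filter] at hi
      obtain ⟨hiE, hdis⟩ := hi
      rw [Finset.disjoint_insert_right] at hdis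
      rw [Finset.mem_sdiff]
      refine ⟨Finset.mem_filter.mpr ⟨hiE, hdis.2⟩, ?_⟩
      intro h
      exact hdis.1 (Finset.mem_filter.mp h).2
    have hcard : ((Ed.filter (fun i => Disjoint (e i) (insert v T))).card : ℝ) ≤ R.card - (R.filter (fun i => v ∈ e i)).card := by
      have h6 := Finset.card_le_card hsub
      have h7 : (R \ (R.filter (fun i => v ∈ e i))).card + (R.filter (fun i => v ∈ e i)).card = R.card :=
        Finset.card_sdiff_add_card_eq_card (Finset.filter_subset _ _)
      have h8 : ((R \ (R.filter (fun i => v ∈ e i))).card : ℝ) + (R.filter (fun i => v ∈ e i)).card = R.card := by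
        exact_mod_cast h7
      have h9 : ((Ed.filter (fun i => Disjoint (e i) (insert v T))).card : ℝ) ≤ (R \ (R.filter (fun i => v ∈ e i))).card := by
        exact_mod_cast h6
      linarith
    have hfac : (0 : ℝ) ≤ 1 - (m : ℝ) / V.card := by
      have : (m : ℝ) / V.card ≤ 1 := by
        rw [div_le_one hVr]
        exact_mod_cast hmV
      linarith
    calc ((Ed.filter (fun i => Disjoint (e i) (insert v T))).card : ℝ)
        ≤ R.card - (R.filter (fun i => v ∈ e i)).card := hcard
      _ ≤ R.card - (m : ℝ) * R.card / V.card := by linarith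
      _ = R.card * (1 - (m : ℝ) / V.card) := by ring
      _ ≤ (Ed.card * (1 - (m : ℝ) / V.card) ^ t) * (1 - (m : ℝ) / V.card) :=
          mul_le_mul_of_nonneg_right hR hfac
      _ = Ed.card * (1 - (m : ℝ) / V.card) ^ (t + 1) := by ring

/-- The greedy cover bound. -/
lemma cover {ι : Type*} [DecidableEq ι] (V : Finset ℤ) (Ed : Finset ι) (e : ι → Finset ℤ)
    (m N : ℕ) (hm1 : 1 ≤ m) (hN : 1 ≤ N) (hmV : m ≤ V.card) (he : ∀ i ∈ Ed, e i ⊆ V)
    (hm : ∀ i ∈ Ed, m ≤ (e i).card) (hE : Ed.card ≤ N * V.card) :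
    ∃ T : Finset ℤ, (∀ i ∈ Ed, ¬ Disjoint (e i) T) ∧
      (T.card : ℝ) ≤ V.card * (1 + Real.log (N * m)) / m + 1 := by
  have hV : 0 < V.card := by omega
  have hVr : (0 : ℝ) < V.card := by exact_mod_cast hV
  have hmr : (0 : ℝ) < m := by exact_mod_cast hm1
  have hNr : (0 : ℝ) < N := by exact_mod_cast hN
  have hNm : (1 : ℝ) ≤ (N : ℝ) * m := by
    have : 1 ≤ N * m := Nat.one_le_iff_ne_zero.mpr (by positivity)
    exact_mod_cast this
  have hlog : 0 ≤ Real.log ((N : ℝ) * m) := Real.log_nonneg hNm
  set t : ℕ := ⌈(V.card : ℝ) / m * Real.log (N * m)⌉₊ with ht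
  obtain ⟨T, hT, hR⟩ := greedy V Ed e m hV hmV he hm t
  set R := Ed.filter (fun i => Disjoint (e i) T) with hRdef
  have hne : ∀ i ∈ Ed, (e i).Nonempty := fun i hi => Finset.card_pos.mp (lt_of_lt_of_le hm1 (hm i hi))
  classical
  let pick : ι → ℤ := fun i => if h : (e i).Nonempty then h.choose else 0
  have hpick : ∀ i ∈ Ed, pick i ∈ e i := by
    intro i hi
    have h := hne i hi
    simp only [pick, dif_pos h]
    exact h.choose_spec
  refine ⟨T ∪ R.image pick, ?_, ?_⟩
  · intro i hi hdis
    rw [Finset.disjoint_union_right] at hdis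
    have hiR : i ∈ R := Finset.mem_filter.mpr ⟨hi, hdis.1⟩
    exact Finset.disjoint_left.mp hdis.2 (hpick i hi) (Finset.mem_image_of_mem pick hiR)
  · have h1 : ((T ∪ R.image pick).card : ℝ) ≤ T.card + R.card := by
      have := (Finset.card_union_le T (R.image pick)).trans (Nat.add_le_add_left Finset.card_image_le _)
      exact_mod_cast this
    have h2 : (T.card : ℝ) ≤ (V.card : ℝ) / m * Real.log (N * m) + 1 := by
      have h3 : (T.card : ℝ) ≤ t := by exact_mod_cast hT
      have h4 : (t : ℝ) < (V.card : ℝ) / m * Real.log (N * m) + 1 :=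
        Nat.ceil_lt_add_one (by positivity)
      linarith
    have hfac : (0 : ℝ) ≤ 1 - (m : ℝ) / V.card := by
      have : (m : ℝ) / V.card ≤ 1 := by
        rw [div_le_one hVr]
        exact_mod_cast hmV
      linarith
    have h5 : (1 - (m : ℝ) / V.card) ^ t ≤ 1 / (N * m) := by
      have h6 : 1 - (m : ℝ) / V.card ≤ Real.exp (-((m : ℝ) / V.card)) := by
        have := Real.add_one_le_exp (-((m : ℝ) / V.card))
        linarith
      have h7 : (1 - (m : ℝ) / V.card) ^ t ≤ (Real.exp (-((m : ℝ) / V.card))) ^ t :=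
        pow_le_pow_left₀ hfac h6 t
      have h8 : (Real.exp (-((m : ℝ) / V.card))) ^ t = Real.exp (-((m : ℝ) / V.card) * t) := by
        rw [← Real.exp_nat_mul]
        congr 1
        ring
      have h9 : (V.card : ℝ) / m * Real.log (N * m) ≤ t := Nat.le_ceil _
      have h10 : Real.log (N * m) ≤ (m : ℝ) / V.card * t := by
        have := mul_le_mul_of_nonneg_left h9 (by positivity : (0 : ℝ) ≤ (m : ℝ) / V.card)
        have h11 : (m : ℝ) / V.card * ((V.card : ℝ) / m * Real.log (N * m)) = Real.log (N * m) := by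
          field_simp
        linarith
      calc (1 - (m : ℝ) / V.card) ^ t ≤ Real.exp (-((m : ℝ) / V.card) * t) := by rw [← h8]; exact h7
        _ ≤ Real.exp (-Real.log (N * m)) := Real.exp_le_exp.mpr (by linarith)
        _ = 1 / (N * m) := by
            rw [Real.exp_neg, Real.exp_log (by positivity), one_div]
    have h12 : (R.card : ℝ) ≤ V.card / m := by
      have hEr : (Ed.card : ℝ) ≤ N * V.card := by exact_mod_cast hE
      calc (R.card : ℝ) ≤ Ed.card * (1 - (m : ℝ) / V.card) ^ t := hR
        _ ≤ (N * V.card) * (1 / (N * m)) :=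
            mul_le_mul hEr h5 (pow_nonneg hfac _) (by positivity)
        _ = V.card / m := by field_simp
    calc ((T ∪ R.image pick).card : ℝ) ≤ T.card + R.card := h1
      _ ≤ ((V.card : ℝ) / m * Real.log (N * m) + 1) + V.card / m := by linarith
      _ = V.card * (1 + Real.log (N * m)) / m + 1 := by ring

end H69TR
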