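import Pool.Agent.H69.TR.Window

/-!
The two instances: arbitrary infinite sets, and sequences with known gaps.
-/

namespace H69TR

open Finset MeasureTheory Filter Topology

/-- A gauge: positive and increasing on the positive reals, with limit `0` at `0`. -/
structure Gauge (h : ℝ → ℝ) : Prop where
  pos : ∀ r, 0 < r → 0 < h r
  mono : ∀ r s, 0 < r → r ≤ s → h r ≤ h s
  lim : Tendsto h (𝓝[>] 0) (𝓝 0)

abbrev Avoid (B Z : Set ℝ) : Prop :=
  ∀ ε : ℝ, 0 < ε → ∃ E : Set ℝ, E ⊆ Set.Icc 0 1 ∧ IsCompact E ∧ 1 - ε ≤ volume.real E ∧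
    ∀ a b : ℝ, b ∈ B → b ≠ 0 → ¬ ((fun z => a + b * z) '' Z ⊆ E)

lemma avoid_mono {B Z W : Set ℝ} (hZW : Z ⊆ W) (hZ : Avoid B Z) : Avoid B W := by
  intro ε hε
  obtain ⟨E, h1, h2, h3, h4⟩ := hZ ε hε
  exact ⟨E, h1, h2, h3, fun a b hb hb0 hsub => h4 a b hb hb0 ((Set.image_mono hZW).trans hsub)⟩

lemma avoid_unbounded {B Z : Set ℝ} (hZ : ¬ Bornology.IsBounded Z) : Avoid B Z := by
  intro ε hε
  refine ⟨Set.Icc 0 1, subset_rfl, isCompact_Icc, ?_, ?_⟩
  · have : volume.real (Set.Icc (0:ℝ) 1) = 1 := by simp [Measure.real]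
    rw [this]
    linarith
  · intro a b _ hb0 hsub
    apply hZ
    rw [isBounded_iff_forall_norm_le]
    refine ⟨(1 + |a|) / |b|, fun z hz => ?_⟩
    have h1 : a + b * z ∈ Set.Icc (0:ℝ) 1 := hsub ⟨z, hz, rfl⟩
    have h2 : |b * z| ≤ 1 + |a| := by
      have h3 : |b * z| ≤ |a + b * z| + |a| := by
        have := abs_sub (a + b * z) a
        rwa [add_sub_cancel_left] at this
      have h4 : |a + b * z| ≤ 1 := by
        rw [abs_le]
        constructor <;> linarith [h1.1, h1.2]
      linarith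
    rw [Real.norm_eq_abs, le_div_iff₀ (abs_pos.mpr hb0), ← abs_mul, mul_comm z b]
    exact h2

lemma succ_le_two_pow (k : ℕ) : (k : ℝ) + 1 ≤ 2 ^ k := by
  have h : k + 1 ≤ 2 ^ k := Nat.lt_two_pow_self
  exact_mod_cast h

lemma two_pow_mul_two_pow (k : ℕ) : (2 : ℝ) ^ k * 2 ^ k = 4 ^ k := by
  rw [← mul_pow]
  norm_num

/-- Sequences with gaps at least `γ`. -/
lemma avoid_seq (x γ : ℕ → ℝ) (hγ0 : ∀ j, 0 < γ j) (hγ1 : ∀ j, γ j ≤ 1) (hγ : Antitone γ)
    (hx : ∀ i j, i < j → γ j ≤ |x i - x j|) (h : ℝ → ℝ) (hh : Gauge h)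
    (hs : Summable (fun k : ℕ => Real.log (1 / h (γ (2 ^ k) / 4 ^ k)) / 2 ^ k)) (B : Set ℝ)
    (hB : Null h B) : Avoid B (Set.range x) := by
  classical
  by_cases hbd : Bornology.IsBounded (Set.range x)
  swap
  · exact avoid_unbounded hbd
  obtain ⟨D, hD⟩ := isBounded_iff_forall_norm_le.mp hbd
  have hinj : Function.Injective x := by
    intro i j hij
    rcases lt_trichotomy i j with hlt | heq | hlt
    · have := hx i j hlt
      rw [hij, sub_self, abs_zero] at this
      linarith [hγ0 j]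
    · exact heq
    · have := hx j i hlt
      rw [hij, sub_self, abs_zero] at this
      linarith [hγ0 i]
  set d : ℕ → ℝ := fun k => γ (2 ^ k) / 4 ^ k with hd
  have hd0 : ∀ k, 0 < d k := fun k => div_pos (hγ0 _) (by positivity)
  have hdanti : Antitone d := by
    intro k l hkl
    rw [hd]
    simp only
    apply div_le_div₀ (hγ0 _).le (hγ (Nat.pow_le_pow_right (by norm_num) hkl)) (by positivity)
    exact pow_le_pow_right₀ (by norm_num) hkl
  have hdlim : Tendsto d atTop (𝓝 0) := by
    have h1 : Tendsto (fun k : ℕ => ((1 : ℝ) / 4) ^ k) atTop (𝓝 0) :=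
      tendsto_pow_atTop_nhds_zero_of_lt_one (by norm_num) (by norm_num)
    refine squeeze_zero (fun k => (hd0 k).le) (fun k => ?_) h1
    rw [hd]
    simp only
    rw [div_pow, one_pow]
    exact div_le_div_of_nonneg_right (hγ1 _) (by positivity)
  let S : Data (Set.range x) h :=
    { D := max 1 D
      hD := le_max_left _ _
      bound := fun z hz => (hD z hz).trans (le_max_right _ _)
      m := fun k => 2 ^ k
      m_pos := fun k => Nat.one_le_two_pow
      F := fun k => (Finset.range (2 ^ k)).image x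
      F_sub := by
        intro k y hy
        obtain ⟨i, _, rfl⟩ := Finset.mem_image.mp hy
        exact ⟨i, rfl⟩
      F_card := by
        intro k
        rw [Finset.card_image_of_injective _ hinj, Finset.card_range]
      g := fun k => γ (2 ^ k)
      g_pos := fun k => hγ0 _
      g_le := by
        intro k y hy z hz hne
        obtain ⟨i, hi, rfl⟩ := Finset.mem_image.mp hy
        obtain ⟨j, hj, rfl⟩ := Finset.mem_image.mp hz
        rw [Finset.mem_range] at hi hj
        have hij : i ≠ j := fun h => hne (by rw [h])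
        rcases lt_or_gt_of_ne hij with hlt | hlt
        · exact (hγ hj.le).trans (hx i j hlt)
        · rw [abs_sub_comm]
          exact (hγ hi.le).trans (hx j i hlt)
      w := fun k => min 1 (h (d (k + 1)))
      w_pos := fun k => lt_min one_pos (hh.pos _ (hd0 _))
      w_le := fun k => min_le_left _ _
      d := d
      d_anti := hdanti
      d_tendsto := hdlim
      d_g := by
        intro k
        rw [hd]
        simp only
        have h1 : (k : ℝ) + 1 ≤ 4 ^ k := by
          have := succ_le_two_pow k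
          have h2 : (2 : ℝ) ^ k ≤ 4 ^ k := pow_le_pow_left₀ (by norm_num) (by norm_num) k
          linarith
        rw [mul_div_assoc', div_le_iff₀ (by positivity)]
        have := mul_le_mul_of_nonneg_right h1 (hγ0 (2 ^ k)).le
        linarith
      d_m := by
        intro k
        rw [hd]
        simp only
        push_cast
        rw [mul_div_assoc', div_le_div_iff₀ (by positivity) (by positivity)]
        have h1 := succ_le_two_pow k
        have h2 := two_pow_mul_two_pow k
        have h3 : ((k : ℝ) + 1) * γ (2 ^ k) ≤ 2 ^ k := by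
          have h4 := hγ1 (2 ^ k)
          have h5 := (hγ0 (2 ^ k)).le
          have h6 : (0 : ℝ) ≤ (k : ℝ) + 1 := by positivity
          nlinarith
        calc ((k : ℝ) + 1) * γ (2 ^ k) * 2 ^ k ≤ 2 ^ k * 2 ^ k :=
              mul_le_mul_of_nonneg_right h3 (by positivity)
          _ = 1 * 4 ^ k := by rw [h2, one_mul]
      d_pos := hd0
      h_w := by
        intro k ρ hρ
        exact (min_le_right _ _).trans (hh.mono _ _ (hd0 _) hρ)
      h_nonneg := fun ρ hρ => (hh.pos _ hρ).le
      summ := by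
        -- comparison with `(1 + k log 2)/2^k + 2 |log (1/h (d (k+1)))| / 2^(k+1)`
        have hs1 : Summable (fun k : ℕ => 2 * |Real.log (1 / h (d (k + 1))) / 2 ^ (k + 1)|) :=
          (((summable_nat_add_iff 1).mpr hs).abs).mul_left 2
        have hs2 : Summable (fun k : ℕ => ((1 : ℝ) / 2) ^ k) :=
          summable_geometric_of_lt_one (by norm_num) (by norm_num)
        have hs3 : Summable (fun k : ℕ => Real.log 2 * ((k : ℝ) * ((1 : ℝ) / 2) ^ k)) := by
          have := (summable_pow_mul_geometric_of_norm_lt_one 1 (r := (1 / 2 : ℝ)) (by norm_num))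
          simp only [pow_one] at this
          exact this.mul_left _
        refine Summable.of_nonneg_of_le ?_ ?_ ((hs2.add hs3).add hs1)
        · intro k
          have hw0 : 0 < min 1 (h (d (k + 1))) := lt_min one_pos (hh.pos _ (hd0 _))
          have hw1 : min 1 (h (d (k + 1))) ≤ 1 := min_le_left _ _
          have h1 : (1 : ℝ) ≤ ((2 ^ k : ℕ) : ℝ) / min 1 (h (d (k + 1))) := by
            rw [le_div_iff₀ hw0]
            have : (1 : ℝ) ≤ ((2 ^ k : ℕ) : ℝ) := by
              have := Nat.one_le_two_pow (n := k)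
              exact_mod_cast this
            linarith
          have h2 := Real.log_nonneg h1
          positivity
        · intro k
          have hp : 0 < h (d (k + 1)) := hh.pos _ (hd0 _)
          have hw0 : 0 < min 1 (h (d (k + 1))) := lt_min one_pos hp
          have h2k : (0 : ℝ) < 2 ^ k := by positivity
          have h3 : Real.log (((2 ^ k : ℕ) : ℝ) / min 1 (h (d (k + 1)))) ≤ k * Real.log 2 + |Real.log (1 / h (d (k + 1)))| := by
            push_cast
            rw [Real.log_div h2k.ne' hw0.ne', Real.log_pow]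
            rcases le_total 1 (h (d (k + 1))) with hc | hc
            · rw [min_eq_left hc, Real.log_one]
              linarith [abs_nonneg (Real.log (1 / h (d (k + 1))))]
            · rw [min_eq_right hc, one_div, Real.log_inv]
              linarith [le_abs_self (-Real.log (h (d (k + 1))))]
          have h4 : (1 + Real.log (((2 ^ k : ℕ) : ℝ) / min 1 (h (d (k + 1))))) / ((2 ^ k : ℕ) : ℝ) ≤
              (1 + (k * Real.log 2 + |Real.log (1 / h (d (k + 1)))|)) / 2 ^ k := by
            push_cast at h3 ⊢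
            exact div_le_div_of_nonneg_right (by linarith) h2k.le
          refine h4.trans (le_of_eq ?_)
          rw [abs_div, abs_of_pos (by positivity : (0 : ℝ) < 2 ^ (k + 1)), pow_succ, one_div_pow]
          field_simp
          ring }
  exact avoid S hB

/-- A gauge that is not too small along a given sequence. -/
lemma exists_gauge (d : ℕ → ℝ) (hd0 : ∀ k, 0 < d k) (hd : Antitone d)
    (hlim : Tendsto d atTop (𝓝 0)) :
    ∃ h : ℝ → ℝ, Gauge h ∧ ∀ k : ℕ, Real.exp (-(k : ℝ)) ≤ h (d k) ∧ h (d k) ≤ 1 := by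
  have hne : ∀ ρ : ℝ, 0 < ρ → {k : ℕ | d k ≤ ρ}.Nonempty := by
    intro ρ hρ
    obtain ⟨k, hk⟩ := (hlim.eventually_lt_const hρ).exists
    exact ⟨k, le_of_lt hk⟩
  refine ⟨fun ρ => Real.exp (-((sInf {k : ℕ | d k ≤ ρ} : ℕ) : ℝ)), ⟨?_, ?_, ?_⟩, ?_⟩
  · intro r _
    exact Real.exp_pos _
  · intro r s hr hrs
    apply Real.exp_le_exp.mpr
    have h1 : sInf {k : ℕ | d k ≤ s} ≤ sInf {k : ℕ | d k ≤ r} := by
      apply Nat.sInf_le
      have h2 : d (sInf {k : ℕ | d k ≤ r}) ≤ r := Nat.sInf_mem (hne r hr)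
      exact h2.trans hrs
    have h3 : ((sInf {k : ℕ | d k ≤ s} : ℕ) : ℝ) ≤ ((sInf {k : ℕ | d k ≤ r} : ℕ) : ℝ) := by
      exact_mod_cast h1
    linarith
  · have hκ : Tendsto (fun ρ : ℝ => sInf {k : ℕ | d k ≤ ρ}) (𝓝[>] 0) atTop := by
      rw [tendsto_atTop]
      intro K
      filter_upwards [Ioo_mem_nhdsGT (hd0 K)] with ρ hρ
      have h2 : d (sInf {k : ℕ | d k ≤ ρ}) ≤ ρ := Nat.sInf_mem (hne ρ hρ.1)
      by_contra hcon
      push Not at hcon
      have h3 := hd hcon.le
      linarith [hρ.2]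
    exact Real.tendsto_exp_neg_atTop_nhds_zero.comp (tendsto_natCast_atTop_atTop.comp hκ)
  · intro k
    constructor
    · apply Real.exp_le_exp.mpr
      have h1 : sInf {l : ℕ | d l ≤ d k} ≤ k := Nat.sInf_le (le_refl (d k))
      have h2 : ((sInf {l : ℕ | d l ≤ d k} : ℕ) : ℝ) ≤ k := by exact_mod_cast h1
      linarith
    · rw [← Real.exp_zero]
      apply Real.exp_le_exp.mpr
      have : (0 : ℝ) ≤ ((sInf {l : ℕ | d l ≤ d k} : ℕ) : ℝ) := Nat.cast_nonneg _
      linarith

lemma exists_gap_new (x : ℕ → ℝ) (hinj : Function.Injective x) (j n : ℕ) (hn : n ≤ j) :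
    ∃ g : ℝ, 0 < g ∧ ∀ i, i < n → g ≤ |x i - x j| := by
  induction n with
  | zero => exact ⟨1, one_pos, fun i hi => absurd hi (Nat.not_lt_zero i)⟩
  | succ n ih =>
    obtain ⟨g, hg, hg'⟩ := ih (by omega)
    have hne : x n ≠ x j := fun h => by
      have := hinj h
      omega
    refine ⟨min g |x n - x j|, lt_min hg (abs_pos.mpr (sub_ne_zero.mpr hne)), fun i hi => ?_⟩
    rcases Nat.lt_succ_iff_lt_or_eq.mp hi with h | h
    · exact (min_le_left _ _).trans (hg' i h)
    · rw [h]
      exact min_le_right _ _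

/-- Every infinite set has a gauge. -/
lemma avoid_infinite (Z : Set ℝ) (hZ : Z.Infinite) :
    ∃ h : ℝ → ℝ, Gauge h ∧ ∀ B : Set ℝ, Null h B → Avoid B Z := by
  classical
  set x : ℕ → ℝ := fun n => (hZ.natEmbedding Z n : ℝ) with hx
  have hinj : Function.Injective x := fun i j hij =>
    (hZ.natEmbedding Z).injective (Subtype.ext hij)
  have hxZ : Set.range x ⊆ Z := by
    rintro _ ⟨n, rfl⟩
    exact (hZ.natEmbedding Z n).2
  have hgap : ∀ j, ∃ g : ℝ, 0 < g ∧ ∀ i, i < j → g ≤ |x i - x j| := fun j =>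
    exists_gap_new x hinj j j le_rfl
  choose g hg0 hg using hgap
  let γ : ℕ → ℝ := fun j => Nat.rec (min 1 (g 0)) (fun j y => min y (g (j + 1))) j
  have hγs : ∀ j, γ (j + 1) = min (γ j) (g (j + 1)) := fun j => rfl
  have hγz : γ 0 = min 1 (g 0) := rfl
  have hγ0 : ∀ j, 0 < γ j := by
    intro j
    induction j with
    | zero => rw [hγz]; exact lt_min one_pos (hg0 0)
    | succ j ih => rw [hγs]; exact lt_min ih (hg0 _)
  have hγa : Antitone γ := antitone_nat_of_succ_le (fun j => by rw [hγs]; exact min_le_left _ _)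
  have hγ1 : ∀ j, γ j ≤ 1 := fun j => (hγa (Nat.zero_le j)).trans (by rw [hγz]; exact min_le_left _ _)
  have hγg : ∀ j, γ j ≤ g j := by
    intro j
    cases j with
    | zero => rw [hγz]; exact min_le_right _ _
    | succ j => rw [hγs]; exact min_le_right _ _
  set d : ℕ → ℝ := fun k => γ (2 ^ k) / 4 ^ k with hd
  have hd0 : ∀ k, 0 < d k := fun k => div_pos (hγ0 _) (by positivity)
  have hdanti : Antitone d := by
    intro k l hkl
    rw [hd]
    simp only
    apply div_le_div₀ (hγ0 _).le (hγa (Nat.pow_le_pow_right (by norm_num) hkl)) (by positivity)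
    exact pow_le_pow_right₀ (by norm_num) hkl
  have hdlim : Tendsto d atTop (𝓝 0) := by
    have h1 : Tendsto (fun k : ℕ => ((1 : ℝ) / 4) ^ k) atTop (𝓝 0) :=
      tendsto_pow_atTop_nhds_zero_of_lt_one (by norm_num) (by norm_num)
    refine squeeze_zero (fun k => (hd0 k).le) (fun k => ?_) h1
    rw [hd]
    simp only
    rw [div_pow, one_pow]
    exact div_le_div_of_nonneg_right (hγ1 _) (by positivity)
  obtain ⟨h, hh, hhd⟩ := exists_gauge d hd0 hdanti hdlim
  refine ⟨h, hh, fun B hB => avoid_mono hxZ ?_⟩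
  refine avoid_seq x γ hγ0 hγ1 hγa (fun i j hij => (hγg j).trans (hg j i hij)) h hh ?_ B hB
  have hs3 : Summable (fun k : ℕ => ((k : ℝ) * ((1 : ℝ) / 2) ^ k)) := by
    have := (summable_pow_mul_geometric_of_norm_lt_one 1 (r := (1 / 2 : ℝ)) (by norm_num))
    simpa only [pow_one] using this
  refine Summable.of_nonneg_of_le ?_ ?_ hs3
  · intro k
    have h1 : (1 : ℝ) ≤ 1 / h (d k) := by
      rw [le_div_iff₀ (hh.pos _ (hd0 k))]
      linarith [(hhd k).2]
    exact div_nonneg (Real.log_nonneg h1) (by positivity)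
  · intro k
    have hp : 0 < h (d k) := hh.pos _ (hd0 k)
    have h1 : Real.log (1 / h (d k)) ≤ k := by
      rw [one_div, Real.log_inv]
      have h2 : -(k : ℝ) ≤ Real.log (h (d k)) := by
        rw [Real.le_log_iff_exp_le hp]
        exact (hhd k).1
      linarith
    have h2 := div_le_div_of_nonneg_right h1 (by positivity : (0 : ℝ) ≤ 2 ^ k)
    refine h2.trans (le_of_eq ?_)
    rw [one_div_pow]
    ring

/-- Sequences with exponential gaps and Dini gauges. -/
lemma avoid_exponential (x : ℕ → ℝ) (q : ℝ) (hq : 0 < q)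
    (hx : ∀ i j, i < j → q ^ j ≤ |x i - x j|) (h : ℝ → ℝ) (hh : Gauge h)
    (hs : Summable (fun k : ℕ => Real.log (1 / h (Real.exp (-(2 : ℝ) ^ k))) / 2 ^ k)) (B : Set ℝ)
    (hB : Null h B) : Avoid B (Set.range x) := by
  set q' : ℝ := min q (1 / 2) with hq'
  have hq0 : 0 < q' := lt_min hq (by norm_num)
  have hq1 : q' ≤ 1 := (min_le_right _ _).trans (by norm_num)
  have hγ0 : ∀ j : ℕ, 0 < q' ^ j := fun j => pow_pos hq0 j
  have hγ1 : ∀ j : ℕ, q' ^ j ≤ 1 := fun j => pow_le_one₀ hq0.le hq1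
  have hγa : Antitone (fun j : ℕ => q' ^ j) := fun i j hij => pow_le_pow_of_le_one hq0.le hq1 hij
  refine avoid_seq x (fun j => q' ^ j) hγ0 hγ1 hγa (fun i j hij =>
    (pow_le_pow_left₀ hq0.le (min_le_left _ _) j).trans (hx i j hij)) h hh ?_ B hB
  set d : ℕ → ℝ := fun k => q' ^ (2 ^ k) / 4 ^ k with hd
  have hd0 : ∀ k, 0 < d k := fun k => div_pos (hγ0 _) (by positivity)
  have hdlim : Tendsto d atTop (𝓝 0) := by
    have h1 : Tendsto (fun k : ℕ => ((1 : ℝ) / 4) ^ k) atTop (𝓝 0) :=
      tendsto_pow_atTop_nhds_zero_of_lt_one (by norm_num) (by norm_num)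
    refine squeeze_zero (fun k => (hd0 k).le) (fun k => ?_) h1
    rw [hd]
    simp only
    rw [div_pow, one_pow]
    exact div_le_div_of_nonneg_right (hγ1 _) (by positivity)
  have hhd : Tendsto (fun k => h (d k)) atTop (𝓝 0) := by
    refine hh.lim.comp ?_
    rw [tendsto_nhdsWithin_iff]
    exact ⟨hdlim, Eventually.of_forall (fun k => hd0 k)⟩
  obtain ⟨p, hp⟩ := pow_unbounded_of_one_lt (Real.log (1 / q') + Real.log 4) (by norm_num : (1 : ℝ) < 2)
  have hle : ∀ k : ℕ, Real.exp (-(2 : ℝ) ^ (k + p)) ≤ d k := by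
    intro k
    have h1 : d k = Real.exp (((2 ^ k : ℕ) : ℝ) * Real.log q' - (k : ℝ) * Real.log 4) := by
      rw [Real.exp_sub, Real.exp_nat_mul, Real.exp_nat_mul, Real.exp_log hq0, Real.exp_log (by norm_num)]
    rw [h1]
    apply Real.exp_le_exp.mpr
    have h2 : (k : ℝ) ≤ 2 ^ k := by linarith [succ_le_two_pow k]
    have h3 : 0 < Real.log 4 := Real.log_pos (by norm_num)
    have h4 : Real.log (1 / q') = - Real.log q' := by rw [one_div, Real.log_inv]
    rw [h4] at hp
    have h5 : (0 : ℝ) < 2 ^ k := by positivity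
    have h6 := mul_le_mul_of_nonneg_left hp.le h5.le
    have h7 := mul_le_mul_of_nonneg_right h2 h3.le
    rw [pow_add]
    push_cast
    linarith
  have hs' : Summable (fun k : ℕ => 2 ^ p * |Real.log (1 / h (Real.exp (-(2 : ℝ) ^ (k + p)))) / 2 ^ (k + p)|) :=
    (((summable_nat_add_iff p).mpr hs).abs).mul_left _
  refine Summable.of_norm_bounded_eventually_nat hs' ?_
  filter_upwards [hhd.eventually_lt_const one_pos] with k hk
  have hp1 : 0 < h (d k) := hh.pos _ (hd0 k)
  have hp2 : 0 < h (Real.exp (-(2 : ℝ) ^ (k + p))) := hh.pos _ (Real.exp_pos _)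
  have h1 : (1 : ℝ) ≤ 1 / h (d k) := by
    rw [le_div_iff₀ hp1]
    linarith
  have h2 : 0 ≤ Real.log (1 / h (d k)) / 2 ^ k := div_nonneg (Real.log_nonneg h1) (by positivity)
  rw [Real.norm_eq_abs, abs_of_nonneg h2]
  have h3 : Real.log (1 / h (d k)) ≤ Real.log (1 / h (Real.exp (-(2 : ℝ) ^ (k + p)))) := by
    apply Real.log_le_log (by positivity)
    exact one_div_le_one_div_of_le hp2 (hh.mono _ _ (Real.exp_pos _) (hle k))
  calc Real.log (1 / h (d k)) / 2 ^ k
      ≤ Real.log (1 / h (Real.exp (-(2 : ℝ) ^ (k + p)))) / 2 ^ k :=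
        div_le_div_of_nonneg_right h3 (by positivity)
    _ = 2 ^ p * (Real.log (1 / h (Real.exp (-(2 : ℝ) ^ (k + p)))) / 2 ^ (k + p)) := by
        rw [pow_add]
        field_simp
    _ ≤ 2 ^ p * |Real.log (1 / h (Real.exp (-(2 : ℝ) ^ (k + p)))) / 2 ^ (k + p)| :=
        mul_le_mul_of_nonneg_left (le_abs_self _) (by positivity)

end H69TR
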