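import Pool.Agent.H69.TR.Instances

/-!
A positive set with few ratios of copies can be made free of copies.
-/

namespace H69TR

open Finset MeasureTheory Filter Topology

lemma null_empty {h : ℝ → ℝ} (hh : Gauge h) : Null h ∅ := by
  intro η hη
  have hex : ∀ n : ℕ, ∃ ρ : ℝ, 0 < ρ ∧ h ρ ≤ η / 2 / 2 ^ n := by
    intro n
    have h1 := hh.lim.eventually_lt_const (by positivity : (0 : ℝ) < η / 2 / 2 ^ n)
    obtain ⟨ρ, h2, h3⟩ := (h1.and self_mem_nhdsWithin).exists
    exact ⟨ρ, h3, h2.le⟩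
  choose ρ hρ hρ' using hex
  have hs : Summable (fun n : ℕ => η / 2 / 2 ^ n) := summable_geometric_two' η
  have hs' : Summable (fun n => h (ρ n)) :=
    Summable.of_nonneg_of_le (fun n => (hh.pos _ (hρ n)).le) hρ' hs
  refine ⟨fun _ => 0, ρ, hρ, Set.empty_subset _, hs', ?_⟩
  calc ∑' n, h (ρ n) ≤ ∑' n : ℕ, η / 2 / 2 ^ n := hs'.tsum_le_tsum hρ' hs
    _ = η := tsum_geometric_two' η

lemma reduction {Z : Set ℝ} {h : ℝ → ℝ} (hA : ∀ B, Null h B → Avoid B Z) (E : Set ℝ)
    (hE : MeasurableSet E) (hpos : 0 < volume E)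
    (hnull : Null h {b : ℝ | b ≠ 0 ∧ ∃ a : ℝ, (fun z => a + b * z) '' Z ⊆ E}) :
    ∃ E' : Set ℝ, MeasurableSet E' ∧ 0 < volume E' ∧
      ∀ a b : ℝ, b ≠ 0 → ¬ ((fun z => a + b * z) '' Z ⊆ E') := by
  -- a unit interval which meets `E` in a positive set
  obtain ⟨n, hn⟩ : ∃ n : ℤ, volume (E ∩ Set.Icc (n : ℝ) (n + 1)) ≠ 0 := by
    by_contra hcon
    push Not at hcon
    have h1 : E = ⋃ n : ℤ, E ∩ Set.Icc (n : ℝ) (n + 1) := by
      ext x
      simp only [Set.mem_iUnion, Set.mem_inter_iff, Set.mem_Icc]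
      constructor
      · intro hx
        exact ⟨⌊x⌋, hx, Int.floor_le x, (Int.lt_floor_add_one x).le⟩
      · rintro ⟨_, hx, _⟩
        exact hx
    have h2 : volume E = 0 := by
      rw [h1]
      exact measure_iUnion_null hcon
    exact hpos.ne' h2
  set E2 : Set ℝ := (fun y => y + (n : ℝ)) ⁻¹' (E ∩ Set.Icc (n : ℝ) (n + 1)) with hE2
  have hE2m : MeasurableSet E2 := (measurable_add_const _) (hE.inter measurableSet_Icc)
  have hE2v : volume E2 ≠ 0 := by
    rw [hE2, measure_preimage_add_right]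
    exact hn
  have hE2s : E2 ⊆ Set.Icc 0 1 := by
    intro y hy
    have h1 := hy.2
    simp only [Set.mem_Icc] at h1 ⊢
    constructor <;> linarith [h1.1, h1.2]
  have hfin : volume E2 ≠ ⊤ := ne_top_of_le_ne_top isCompact_Icc.measure_lt_top.ne (measure_mono hE2s)
  set δ : ℝ := volume.real E2 with hδ
  have hδ0 : 0 < δ := ENNReal.toReal_pos hE2v hfin
  obtain ⟨E1, h1, h2, h3, h4⟩ := hA _ hnull (δ / 2) (by positivity)
  have hE1fin : volume E1 ≠ ⊤ := h2.measure_lt_top.ne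
  refine ⟨E2 ∩ E1, hE2m.inter h2.measurableSet, ?_, ?_⟩
  · have h5 : volume.real (E2 ∪ E1) + volume.real (E2 ∩ E1) = volume.real E2 + volume.real E1 :=
      measureReal_union_add_inter h2.measurableSet (h₁ := hfin) (h₂ := hE1fin)
    have h6 : volume.real (E2 ∪ E1) ≤ 1 := by
      have h7 : volume.real (E2 ∪ E1) ≤ volume.real (Set.Icc (0:ℝ) 1) :=
        measureReal_mono (Set.union_subset hE2s h1) isCompact_Icc.measure_lt_top.ne
      have h8 : volume.real (Set.Icc (0:ℝ) 1) = 1 := by simp [Measure.real]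
      linarith
    have h7 : 0 < volume.real (E2 ∩ E1) := by linarith
    by_contra hcon
    have h8 : volume (E2 ∩ E1) = 0 := by
      simpa using hcon
    rw [Measure.real, h8] at h7
    simp at h7
  · intro a b hb0 hsub
    refine h4 a b ⟨hb0, a + n, ?_⟩ hb0 (hsub.trans Set.inter_subset_right)
    rintro _ ⟨z, hz, rfl⟩
    have h5 : a + b * z ∈ E2 := (hsub ⟨z, hz, rfl⟩).1
    have h6 : a + b * z + n ∈ E := h5.1
    have h7 : a + n + b * z = a + b * z + n := by ring
    simp only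
    rw [h7]
    exact h6

end H69TR
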