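import Pool.Agent.H69.TR.Cover

/-!
One stage of the construction: a small open set that is hit by every copy whose ratio is close to one of
finitely many centres.
-/

namespace H69TR

open Finset MeasureTheory

lemma stage (F C : Finset ℝ) (m N : ℕ) (hm : F.card = m) (hm1 : 1 ≤ m) (hN : 1 ≤ N)
    (hC : C.card ≤ N) (r D : ℝ) (hr : 0 < r) (hr1 : r ≤ 1 / m)
    (hgap : ∀ c ∈ C, ∀ x ∈ F, ∀ y ∈ F, x ≠ y → 2 * r ≤ |c * x - c * y|)
    (hD : ∀ x ∈ F, |x| ≤ D) :
    ∃ G : Set ℝ, IsOpen G ∧ volume G ≤ ENNReal.ofReal (72 * ((1 + Real.log (N * m)) / m)) ∧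
      ∀ a b c : ℝ, c ∈ C → |b - c| * D ≤ r → (∀ x ∈ F, a + b * x ∈ Set.Icc (0:ℝ) 1) →
        ∃ x ∈ F, a + b * x ∈ G := by
  classical
  obtain ⟨x0, hx0⟩ : F.Nonempty := Finset.card_pos.mp (by omega)
  have hmr : (0 : ℝ) < m := by exact_mod_cast hm1
  have hmr1 : (1 : ℝ) ≤ m := by exact_mod_cast hm1
  set q : ℝ → ℝ → ℤ := fun c x => ⌊c * x / r⌋ with hq
  set V : Finset ℤ := Finset.Icc (-4) (⌈1 / r⌉ + 4) with hV
  set e : ℤ × ℝ → Finset ℤ := fun p => F.image (fun x => p.1 + (q p.2 x - q p.2 x0)) with he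
  set Ed : Finset (ℤ × ℝ) := (V ×ˢ C).filter (fun p => e p ⊆ V) with hEd
  have hr0 : 0 < 1 / r := by positivity
  have hceil0 : (0 : ℤ) ≤ ⌈1 / r⌉ := Int.ceil_nonneg hr0.le
  have hVcard : (V.card : ℤ) = ⌈1 / r⌉ + 9 := by
    rw [hV, Int.card_Icc]
    rw [Int.toNat_of_nonneg (by omega)]
    ring
  have hVcardr : (V.card : ℝ) = (⌈1 / r⌉ : ℝ) + 9 := by
    exact_mod_cast hVcard
  have hVle : (V.card : ℝ) ≤ 1 / r + 10 := by
    rw [hVcardr]
    have := Int.ceil_lt_add_one (1 / r)
    linarith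
  have hmV : m ≤ V.card := by
    have h1 : (m : ℝ) ≤ 1 / r := by
      rw [le_div_iff₀ hr]
      rw [le_div_iff₀ hmr] at hr1
      linarith
    have h2 : (1 / r : ℝ) ≤ ⌈1 / r⌉ := Int.le_ceil _
    have h3 : (m : ℝ) ≤ V.card := by
      rw [hVcardr]; linarith
    exact_mod_cast h3
  have heV : ∀ i ∈ Ed, e i ⊆ V := fun i hi => (Finset.mem_filter.mp hi).2
  have hem : ∀ i ∈ Ed, m ≤ (e i).card := by
    intro i hi
    have hiC : i.2 ∈ C := (Finset.mem_product.mp (Finset.mem_filter.mp hi).1).2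
    rw [he]
    simp only
    rw [Finset.card_image_of_injOn, hm]
    intro x hx y hy hxy
    by_contra hne
    have h1 : q i.2 x = q i.2 y := by
      simp only at hxy
      linarith
    have h2 := hgap i.2 hiC x hx y hy hne
    have h3 : |i.2 * x / r - i.2 * y / r| < 1 := Int.abs_sub_lt_one_of_floor_eq_floor h1
    rw [← sub_div, abs_div, abs_of_pos hr, div_lt_one hr] at h3
    linarith
  have hEdcard : Ed.card ≤ N * V.card := by
    calc Ed.card ≤ (V ×ˢ C).card := Finset.card_filter_le _ _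
      _ = V.card * C.card := Finset.card_product _ _
      _ ≤ V.card * N := Nat.mul_le_mul_left _ hC
      _ = N * V.card := Nat.mul_comm _ _
  obtain ⟨T, hT, hTcard⟩ := cover V Ed e m N hm1 hN hmV heV hem hEdcard
  set L : ℝ := Real.log (N * m) with hL
  have hL0 : 0 ≤ L := by
    have hNr : (1 : ℝ) ≤ N := by exact_mod_cast hN
    exact Real.log_nonneg (by nlinarith)
  refine ⟨⋃ v ∈ T, Set.Ioo (((v : ℝ) - 2) * r) (((v : ℝ) + 4) * r), ?_, ?_, ?_⟩
  · exact isOpen_biUnion (fun v _ => isOpen_Ioo)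
  · refine (measure_biUnion_finset_le T _).trans ?_
    have h1 : ∀ v ∈ T, volume (Set.Ioo (((v : ℝ) - 2) * r) (((v : ℝ) + 4) * r)) ≤ ENNReal.ofReal (6 * r) := by
      intro v _
      rw [Real.volume_Ioo]
      apply le_of_eq
      congr 1
      ring
    refine (Finset.sum_le_sum h1).trans ?_
    rw [Finset.sum_const, nsmul_eq_mul]
    rw [← ENNReal.ofReal_natCast, ← ENNReal.ofReal_mul (by positivity)]
    apply ENNReal.ofReal_le_ofReal
    have hr1' : r ≤ 1 / m := hr1
    have hr2 : r ≤ 1 := hr1.trans (by rw [div_le_one hmr]; exact hmr1)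
    have h2 : (V.card : ℝ) * r ≤ 11 := by
      have := mul_le_mul_of_nonneg_right hVle hr.le
      have h3 : (1 / r + 10) * r = 1 + 10 * r := by field_simp
      linarith
    have hA : (0:ℝ) ≤ (1 + L) / m := by positivity
    have h3 : (T.card : ℝ) * r ≤ 11 * ((1 + L) / m) + 1 / m := by
      have h4 := mul_le_mul_of_nonneg_right hTcard hr.le
      have h5 : ((V.card : ℝ) * (1 + L) / m + 1) * r = ((V.card : ℝ) * r) * ((1 + L) / m) + r := by ring
      rw [h5] at h4
      have h6 := mul_le_mul_of_nonneg_right h2 hA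
      linarith
    have h7 : (1 : ℝ) / m ≤ (1 + L) / m := by
      apply div_le_div_of_nonneg_right _ hmr.le
      linarith
    calc (T.card : ℝ) * (6 * r) = 6 * ((T.card : ℝ) * r) := by ring
      _ ≤ 6 * (12 * ((1 + L) / m)) := by linarith
      _ = 72 * ((1 + L) / m) := by ring
  · intro a b c hc hbc hall
    set i : ℤ := ⌊a / r⌋ with hi
    have key : ∀ x ∈ F, ((i + q c x : ℤ) : ℝ) - 1 ≤ (a + b * x) / r ∧ (a + b * x) / r < ((i + q c x : ℤ) : ℝ) + 3 := by
      intro x hx
      have h1 : (i : ℝ) ≤ a / r := Int.floor_le _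
      have h2 : a / r < i + 1 := Int.lt_floor_add_one _
      have h3 : (q c x : ℝ) ≤ c * x / r := Int.floor_le _
      have h4 : c * x / r < q c x + 1 := Int.lt_floor_add_one _
      have h5 : |(b - c) * x / r| ≤ 1 := by
        rw [abs_div, abs_of_pos hr, div_le_one hr, abs_mul]
        exact (mul_le_mul_of_nonneg_left (hD x hx) (abs_nonneg _)).trans hbc
      have h6 := abs_le.mp h5
      have h7 : (a + b * x) / r = a / r + c * x / r + (b - c) * x / r := by ring
      rw [h7]
      push_cast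
      constructor <;> linarith [h6.1, h6.2]
    have hmemV : ∀ x ∈ F, i + q c x ∈ V := by
      intro x hx
      obtain ⟨h1, h2⟩ := key x hx
      obtain ⟨h3, h4⟩ := hall x hx
      have h5 : 0 ≤ (a + b * x) / r := div_nonneg h3 hr.le
      have h6 : (a + b * x) / r ≤ 1 / r := div_le_div_of_nonneg_right h4 hr.le
      rw [hV, Finset.mem_Icc]
      constructor
      · have h7 : (-3 : ℝ) < ((i + q c x : ℤ) : ℝ) := by linarith
        have h8 : (-3 : ℤ) < i + q c x := by exact_mod_cast h7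
        omega
      · have h7 : ((i + q c x : ℤ) : ℝ) ≤ ((⌈1 / r⌉ + 1 : ℤ) : ℝ) := by
          push_cast
          have := Int.le_ceil (1 / r)
          push_cast at h1
          linarith
        have h8 : i + q c x ≤ ⌈1 / r⌉ + 1 := by exact_mod_cast h7
        omega
    have heq : e (i + q c x0, c) = F.image (fun x => i + q c x) := by
      rw [he]
      simp only
      apply Finset.image_congr
      intro x _
      simp only
      ring
    have hmem : (i + q c x0, c) ∈ Ed := by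
      rw [hEd, Finset.mem_filter]
      refine ⟨Finset.mem_product.mpr ⟨hmemV x0 hx0, hc⟩, ?_⟩
      rw [heq]
      intro v hv
      obtain ⟨x, hx, rfl⟩ := Finset.mem_image.mp hv
      exact hmemV x hx
    have hnd := hT _ hmem
    rw [heq, Finset.not_disjoint_iff] at hnd
    obtain ⟨v, hv1, hv2⟩ := hnd
    obtain ⟨x, hx, rfl⟩ := Finset.mem_image.mp hv1
    refine ⟨x, hx, ?_⟩
    obtain ⟨h1, h2⟩ := key x hx
    refine Set.mem_iUnion₂.mpr ⟨i + q c x, hv2, ?_, ?_⟩
    · have : (((i + q c x : ℤ) : ℝ) - 2) * r < ((a + b * x) / r) * r :=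
        mul_lt_mul_of_pos_right (by linarith) hr
      rwa [div_mul_cancel₀ _ hr.ne'] at this
    · have : ((a + b * x) / r) * r < (((i + q c x : ℤ) : ℝ) + 4) * r :=
        mul_lt_mul_of_pos_right (by linarith) hr
      rwa [div_mul_cancel₀ _ hr.ne'] at this

end H69TR
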