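import Pool.Agent.H69.TR.Stage

/-!
Windows: all ratios of `B` of size at least `β` are treated by one small open set.
-/

namespace H69TR

open Finset MeasureTheory Filter Topology

/-- The numerical data the construction needs for a set `Z` and a gauge `h`. -/
structure Data (Z : Set ℝ) (h : ℝ → ℝ) where
  D : ℝ
  hD : 1 ≤ D
  bound : ∀ z ∈ Z, |z| ≤ D
  m : ℕ → ℕ
  m_pos : ∀ k, 1 ≤ m k
  F : ℕ → Finset ℝ
  F_sub : ∀ k, ∀ x ∈ F k, x ∈ Z
  F_card : ∀ k, (F k).card = m k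
  g : ℕ → ℝ
  g_pos : ∀ k, 0 < g k
  g_le : ∀ k, ∀ x ∈ F k, ∀ y ∈ F k, x ≠ y → g k ≤ |x - y|
  w : ℕ → ℝ
  w_pos : ∀ k, 0 < w k
  w_le : ∀ k, w k ≤ 1
  d : ℕ → ℝ
  d_anti : Antitone d
  d_tendsto : Tendsto d atTop (𝓝 0)
  d_g : ∀ k : ℕ, ((k : ℝ) + 1) * d k ≤ g k
  d_m : ∀ k : ℕ, ((k : ℝ) + 1) * d k ≤ 1 / m k
  d_pos : ∀ k, 0 < d k
  h_w : ∀ (k : ℕ) (ρ : ℝ), d (k + 1) ≤ ρ → w k ≤ h ρ
  h_nonneg : ∀ ρ, 0 < ρ → 0 ≤ h ρ
  summ : Summable (fun k => (1 + Real.log (m k / w k)) / m k)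

/-- `B` has arbitrarily small covers by intervals for the gauge `h`. -/
abbrev Null (h : ℝ → ℝ) (B : Set ℝ) : Prop :=
  ∀ η : ℝ, 0 < η → ∃ c ρ : ℕ → ℝ, (∀ n, 0 < ρ n) ∧
    B ⊆ ⋃ n, Set.Icc (c n - ρ n) (c n + ρ n) ∧
    Summable (fun n => h (ρ n)) ∧ ∑' n, h (ρ n) ≤ η

lemma window {Z : Set ℝ} {h : ℝ → ℝ} (S : Data Z h) {B : Set ℝ} (hB : Null h B)
    (β : ℝ) (hβ : 0 < β) (θ : ℝ) (hθ : 0 < θ) :
    ∃ G : Set ℝ, IsOpen G ∧ volume G ≤ ENNReal.ofReal θ ∧
      ∀ a b : ℝ, b ∈ B → β ≤ |b| → (∀ z ∈ Z, a + b * z ∈ Set.Icc (0:ℝ) 1) →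
        ∃ z ∈ Z, a + b * z ∈ G := by
  classical
  have hDpos : 0 < S.D := lt_of_lt_of_le one_pos S.hD
  set f : ℕ → ℝ := fun k => (1 + Real.log (S.m k / S.w k)) / S.m k with hf
  have hm0 : ∀ k, (0 : ℝ) < S.m k := fun k => by exact_mod_cast S.m_pos k
  have hm1 : ∀ k, (1 : ℝ) ≤ S.m k := fun k => by exact_mod_cast S.m_pos k
  have hf0 : ∀ k, 0 ≤ f k := by
    intro k
    have h1 : (1 : ℝ) ≤ S.m k / S.w k := by
      rw [le_div_iff₀ (S.w_pos k)]
      have := S.w_le k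
      have := hm1 k
      linarith
    have := Real.log_nonneg h1
    have := hm0 k
    positivity
  -- the starting stage
  have e1 : ∀ᶠ k : ℕ in atTop, 4 * S.D / β ≤ (k : ℝ) + 1 := by
    have : Tendsto (fun k : ℕ => (k : ℝ) + 1) atTop atTop :=
      tendsto_atTop_add_const_right _ _ tendsto_natCast_atTop_atTop
    exact this.eventually_ge_atTop _
  have e2 : ∀ᶠ k : ℕ in atTop, S.D ≤ (k : ℝ) + 1 := by
    have : Tendsto (fun k : ℕ => (k : ℝ) + 1) atTop atTop :=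
      tendsto_atTop_add_const_right _ _ tendsto_natCast_atTop_atTop
    exact this.eventually_ge_atTop _
  have e3 : ∀ᶠ k : ℕ in atTop, S.d k ≤ β / 2 :=
    (S.d_tendsto.eventually_lt_const (by positivity : (0:ℝ) < β / 2)).mono (fun _ h => h.le)
  have e4 : ∀ᶠ k : ℕ in atTop, ∑' j, f (j + k) < θ / 72 :=
    (tendsto_sum_nat_add f).eventually_lt_const (by positivity)
  obtain ⟨K, hK⟩ := ((e1.and (e2.and (e3.and (e4.and (eventually_ge_atTop 1)))))).exists_forall_of_atTop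
  obtain ⟨-, -, hK3, hK4, hK5⟩ := hK K le_rfl
  have hKa : ∀ k, K ≤ k → 4 * S.D / β ≤ (k : ℝ) + 1 := fun k hk => (hK k hk).1
  have hKb : ∀ k, K ≤ k → S.D ≤ (k : ℝ) + 1 := fun k hk => (hK k hk).2.1
  have hwK := S.w_pos (K - 1)
  obtain ⟨c, ρ, hρ, hcov, hsum, htsum⟩ := hB (min 1 (S.w (K - 1) / 2)) (lt_min one_pos (by positivity))
  have hh0 : ∀ n, 0 ≤ h (ρ n) := fun n => S.h_nonneg _ (hρ n)
  have hle : ∀ n, h (ρ n) ≤ min 1 (S.w (K - 1) / 2) := fun n =>
    (hsum.le_tsum n (fun j _ => hh0 j)).trans htsum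
  have hρd : ∀ n, ρ n < S.d K := by
    intro n
    by_contra hcon
    push Not at hcon
    have h1 : S.d (K - 1 + 1) ≤ ρ n := by
      rwa [Nat.sub_add_cancel hK5]
    have h2 := S.h_w (K - 1) (ρ n) h1
    have h3 := (hle n).trans (min_le_right _ _)
    linarith
  -- the centres of stage `k`
  have hfin : ∀ k, {n : ℕ | S.w k ≤ h (ρ n)}.Finite := by
    intro k
    have h1 := hsum.tendsto_cofinite_zero.eventually_lt_const (S.w_pos k)
    have h2 : {n : ℕ | ¬ h (ρ n) < S.w k}.Finite := h1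
    refine h2.subset ?_
    intro n hn
    simp only [Set.mem_setOf_eq, not_lt]
    exact hn
  set I : ℕ → Finset ℕ := fun k => (hfin k).toFinset with hI
  have hImem : ∀ k n, n ∈ I k ↔ S.w k ≤ h (ρ n) := by
    intro k n
    rw [hI]
    simp
  have hIcard : ∀ k, ((I k).card : ℝ) ≤ 1 / S.w k := by
    intro k
    rw [le_div_iff₀ (S.w_pos k)]
    have h1 : ((I k).card : ℝ) * S.w k ≤ ∑ n ∈ I k, h (ρ n) := by
      have := Finset.card_nsmul_le_sum (I k) (fun n => h (ρ n)) (S.w k) (fun n hn => (hImem k n).mp hn)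
      simpa [nsmul_eq_mul] using this
    have h2 : ∑ n ∈ I k, h (ρ n) ≤ ∑' n, h (ρ n) := hsum.sum_le_tsum _ (fun n _ => hh0 n)
    have h3 := htsum.trans (min_le_left _ _)
    linarith
  set C : ℕ → Finset ℝ := fun k => ((I k).image c).filter (fun y => β / 2 ≤ |y|) with hCdef
  set N : ℕ → ℕ := fun k => ⌊1 / S.w k⌋₊ with hN
  have hN1 : ∀ k, 1 ≤ N k := by
    intro k
    rw [hN]
    apply Nat.le_floor
    rw [le_div_iff₀ (S.w_pos k)]
    have := S.w_le k
    push_cast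
    linarith
  have hCcard : ∀ k, (C k).card ≤ N k := by
    intro k
    have h1 : (C k).card ≤ (I k).card := (Finset.card_filter_le _ _).trans Finset.card_image_le
    refine h1.trans ?_
    rw [hN]
    exact Nat.le_floor (hIcard k)
  set r : ℕ → ℝ := fun k => min (β * S.g k / 4) (1 / S.m k) with hr
  have hr0 : ∀ k, 0 < r k := by
    intro k
    have := S.g_pos k
    have := hm0 k
    exact lt_min (by positivity) (by positivity)
  have hstage : ∀ k, ∃ G : Set ℝ, IsOpen G ∧ volume G ≤ ENNReal.ofReal (72 * f k) ∧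
      ∀ a b c' : ℝ, c' ∈ C k → |b - c'| * S.D ≤ r k →
        (∀ x ∈ S.F k, a + b * x ∈ Set.Icc (0:ℝ) 1) → ∃ x ∈ S.F k, a + b * x ∈ G := by
    intro k
    obtain ⟨G, hG1, hG2, hG3⟩ := stage (S.F k) (C k) (S.m k) (N k) (S.F_card k) (S.m_pos k) (hN1 k)
      (hCcard k) (r k) S.D (hr0 k) (min_le_right _ _) (by
        intro y hy x hx x' hx' hne
        have h1 : β / 2 ≤ |y| := (Finset.mem_filter.mp hy).2
        have h2 := S.g_le k x hx x' hx' hne
        have h3 : y * x - y * x' = y * (x - x') := by ring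
        rw [h3, abs_mul]
        have h4 : β / 2 * S.g k ≤ |y| * |x - x'| :=
          mul_le_mul h1 h2 (S.g_pos k).le (abs_nonneg _)
        have h5 : r k ≤ β * S.g k / 4 := min_le_left _ _
        linarith) (fun x hx => S.bound x (S.F_sub k x hx))
    refine ⟨G, hG1, hG2.trans ?_, hG3⟩
    apply ENNReal.ofReal_le_ofReal
    have hNr : (N k : ℝ) ≤ 1 / S.w k := by
      rw [hN]
      exact Nat.floor_le (by have := S.w_pos k; positivity)
    have hNr0 : (0 : ℝ) < N k := by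
      have := hN1 k
      exact_mod_cast this
    have h1 : Real.log (N k * S.m k) ≤ Real.log (S.m k / S.w k) := by
      apply Real.log_le_log (mul_pos hNr0 (hm0 k))
      have := mul_le_mul_of_nonneg_right hNr (hm0 k).le
      calc (N k : ℝ) * S.m k ≤ 1 / S.w k * S.m k := this
        _ = S.m k / S.w k := by ring
    have h2 : (1 + Real.log (N k * S.m k)) / S.m k ≤ f k := by
      rw [hf]
      apply div_le_div_of_nonneg_right _ (hm0 k).le
      linarith
    linarith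
  choose G hG1 hG2 hG3 using hstage
  refine ⟨⋃ j, G (j + K), isOpen_iUnion (fun j => hG1 _), ?_, ?_⟩
  · refine (measure_iUnion_le _).trans ?_
    have hs : Summable (fun j => 72 * f (j + K)) :=
      ((summable_nat_add_iff K).mpr S.summ).mul_left 72
    calc ∑' j, volume (G (j + K)) ≤ ∑' j, ENNReal.ofReal (72 * f (j + K)) :=
          ENNReal.tsum_le_tsum (fun j => hG2 _)
      _ = ENNReal.ofReal (∑' j, 72 * f (j + K)) := by
          rw [ENNReal.ofReal_tsum_of_nonneg _ hs]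
          intro j
          have := hf0 (j + K)
          positivity
      _ ≤ ENNReal.ofReal θ := by
          apply ENNReal.ofReal_le_ofReal
          rw [tsum_mul_left]
          linarith
  · intro a b hb hβb hall
    obtain ⟨n, hn⟩ := Set.mem_iUnion.mp (hcov hb)
    have hbc : |b - c n| ≤ ρ n := by
      rw [abs_le]
      constructor <;> linarith [hn.1, hn.2]
    have hex : ∃ k, S.d (k + 1) ≤ ρ n := by
      have h1 := (S.d_tendsto.comp (tendsto_add_atTop_nat 1)).eventually_lt_const (hρ n)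
      obtain ⟨k, hk⟩ := h1.exists
      exact ⟨k, le_of_lt hk⟩
    set k := Nat.find hex with hk
    have hk1 : S.d (k + 1) ≤ ρ n := Nat.find_spec hex
    have hKk : K ≤ k := by
      by_contra hcon
      push Not at hcon
      have h1 : S.d K ≤ S.d (k + 1) := S.d_anti (by omega)
      have := hρd n
      linarith
    have hk2 : ρ n < S.d k := by
      by_contra hcon
      push Not at hcon
      have h1 : k - 1 < k := by omega
      have h2 := Nat.find_min hex (m := k - 1) (by rw [← hk]; exact h1)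
      apply h2
      rwa [Nat.sub_add_cancel (by omega)]
    have hw : S.w k ≤ h (ρ n) := S.h_w k _ hk1
    have hmemC : c n ∈ C k := by
      rw [hCdef]
      simp only
      rw [Finset.mem_filter]
      refine ⟨Finset.mem_image_of_mem c ((hImem k n).mpr hw), ?_⟩
      have h1 : |b| ≤ |c n| + |b - c n| := by
        have := abs_add_le (c n) (b - c n)
        rwa [add_sub_cancel] at this
      have h2 := hρd n
      linarith
    have hkk : (0 : ℝ) < (k : ℝ) + 1 := by positivity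
    have hrk : |b - c n| * S.D ≤ r k := by
      have h1 : |b - c n| ≤ S.d k := hbc.trans hk2.le
      have h2 : |b - c n| * S.D ≤ S.d k * S.D := mul_le_mul_of_nonneg_right h1 hDpos.le
      refine h2.trans (le_min ?_ ?_)
      · have h3 := hKa k hKk
        rw [div_le_iff₀ hβ] at h3
        have h4 := S.d_g k
        have h5 := mul_le_mul_of_nonneg_left h3 (S.d_pos k).le
        have h6 := mul_le_mul_of_nonneg_left h4 hβ.le
        linarith
      · have h3 := hKb k hKk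
        have h4 := S.d_m k
        have h5 := mul_le_mul_of_nonneg_left h3 (S.d_pos k).le
        linarith
    obtain ⟨x, hx, hxG⟩ := hG3 k a b (c n) hmemC hrk (fun x hx => hall x (S.F_sub k x hx))
    refine ⟨x, S.F_sub k x hx, Set.mem_iUnion.mpr ⟨k - K, ?_⟩⟩
    rwa [Nat.sub_add_cancel hKk]

/-- The abstract form of the theorem. -/
lemma avoid {Z : Set ℝ} {h : ℝ → ℝ} (S : Data Z h) {B : Set ℝ} (hB : Null h B) :
    ∀ ε : ℝ, 0 < ε → ∃ E : Set ℝ, E ⊆ Set.Icc 0 1 ∧ IsCompact E ∧ 1 - ε ≤ volume.real E ∧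
      ∀ a b : ℝ, b ∈ B → b ≠ 0 → ¬ ((fun z => a + b * z) '' Z ⊆ E) := by
  intro ε hε
  have hw : ∀ p : ℕ, ∃ G : Set ℝ, IsOpen G ∧ volume G ≤ ENNReal.ofReal (ε / 2 / 2 ^ p) ∧
      ∀ a b : ℝ, b ∈ B → 1 / ((p : ℝ) + 1) ≤ |b| → (∀ z ∈ Z, a + b * z ∈ Set.Icc (0:ℝ) 1) →
        ∃ z ∈ Z, a + b * z ∈ G := fun p =>
    window S hB (1 / ((p : ℝ) + 1)) (by positivity) (ε / 2 / 2 ^ p) (by positivity)
  choose G hG1 hG2 hG3 using hw
  have hU : IsOpen (⋃ p, G p) := isOpen_iUnion hG1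
  have hUv : volume (⋃ p, G p) ≤ ENNReal.ofReal ε := by
    refine (measure_iUnion_le _).trans ?_
    have hs : Summable (fun p : ℕ => ε / 2 / 2 ^ p) := summable_geometric_two' ε
    calc ∑' p, volume (G p) ≤ ∑' p : ℕ, ENNReal.ofReal (ε / 2 / 2 ^ p) := ENNReal.tsum_le_tsum hG2
      _ = ENNReal.ofReal (∑' p : ℕ, ε / 2 / 2 ^ p) := by
          rw [ENNReal.ofReal_tsum_of_nonneg _ hs]
          intro p
          positivity
      _ = ENNReal.ofReal ε := by rw [tsum_geometric_two']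
  refine ⟨Set.Icc 0 1 \ ⋃ p, G p, Set.diff_subset, isCompact_Icc.diff hU, ?_, ?_⟩
  · have h1 : volume.real (Set.Icc (0:ℝ) 1 \ ⋃ p, G p) = volume.real (Set.Icc (0:ℝ) 1) - volume.real (Set.Icc (0:ℝ) 1 ∩ ⋃ p, G p) := by
      have := measureReal_inter_add_diff (μ := volume) (s := Set.Icc (0:ℝ) 1) (t := ⋃ p, G p) hU.measurableSet (h := isCompact_Icc.measure_lt_top.ne)
      linarith
    have h2 : volume.real (Set.Icc (0:ℝ) 1) = 1 := by
      simp [Measure.real]
    have h3 : volume.real (Set.Icc (0:ℝ) 1 ∩ ⋃ p, G p) ≤ ε := by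
      rw [Measure.real]
      apply ENNReal.toReal_le_of_le_ofReal hε.le
      exact (measure_mono Set.inter_subset_right).trans hUv
    rw [h1, h2]
    linarith
  · intro a b hb hb0 hsub
    have hall : ∀ z ∈ Z, a + b * z ∈ Set.Icc (0:ℝ) 1 := fun z hz =>
      (hsub ⟨z, hz, rfl⟩ : a + b * z ∈ Set.Icc (0:ℝ) 1 \ ⋃ p, G p).1
    obtain ⟨p, hp⟩ := exists_nat_one_div_lt (abs_pos.mpr hb0)
    obtain ⟨z, hz, hzG⟩ := hG3 p a b hb hp.le hall
    exact (hsub ⟨z, hz, rfl⟩ : a + b * z ∈ Set.Icc (0:ℝ) 1 \ ⋃ p, G p).2 (Set.mem_iUnion.mpr ⟨p, hzG⟩)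

end H69TR
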